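import Pool.Agent.BOG.Stmts

/-!
# Squad BOG, row INC
-/

set_option autoImplicit false

namespace Pool.Agent.BOG.H95

open Pool.Agent.BOG

universe v

theorem inc : IncStmt.{v} := by
  intro K _ n k m c S hm hk hS
  classical
  have h1 : ∀ P, (onP m c S P).card ≤ k + 1 := by
    intro P
    by_contra hcon
    rw [not_le] at hcon
    obtain ⟨t, htA, htc⟩ := Finset.exists_subset_card_eq (show k + 2 ≤ (onP m c S P).card by omega)
    have hq : ∀ Y : t, ∃ Q, Q ≠ P ∧ On (Y : K × K) (m Q) (c Q) := by
      intro Y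
      have hYS : (Y : K × K) ∈ S := (Finset.mem_filter.1 (htA Y.2)).1
      have h2 := hS Y hYS
      unfold rr at h2
      obtain ⟨Q, hQ, hQP⟩ := Finset.exists_mem_ne (Nat.lt_of_lt_of_le Nat.one_lt_two h2) P
      exact ⟨Q, hQP, (Finset.mem_filter.1 hQ).2⟩
    choose g hgP hg using hq
    let e := t.equivFinOfCardEq htc
    obtain ⟨i, j, hij, hc⟩ := hk P (fun i => g (e.symm i))
    have hi := (e.symm i).2
    have hj := (e.symm j).2
    apply hij
    apply e.symm.injective
    apply Subtype.ext
    have a1 : On ((e.symm i : K × K)) (m P) (c P) := (Finset.mem_filter.1 (htA hi)).2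
    have a2 : On ((e.symm j : K × K)) (m P) (c P) := (Finset.mem_filter.1 (htA hj)).2
    have b1 := hg (e.symm i)
    have b2 := hg (e.symm j)
    have n1 : m (g (e.symm i)) - m P ≠ 0 := by
      intro h
      exact hgP (e.symm i) (hm (sub_eq_zero.1 h))
    have n2 : m (g (e.symm j)) - m P ≠ 0 := by
      intro h
      exact hgP (e.symm j) (hm (sub_eq_zero.1 h))
    unfold On at a1 a2 b1 b2
    unfold Conc at hc
    have key : (m (g (e.symm i)) - m P) * (m (g (e.symm j)) - m P) *
        ((e.symm i : K × K).2 - (e.symm j : K × K).2) = 0 := by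
      linear_combination hc + (m (g (e.symm j)) - m P) * (a1 - b1) -
        (m (g (e.symm i)) - m P) * (a2 - b2)
    have h2 : (e.symm i : K × K).2 = (e.symm j : K × K).2 := by
      rcases mul_eq_zero.1 key with h | h
      · rcases mul_eq_zero.1 h with h | h
        · exact absurd h n1
        · exact absurd h n2
      · exact sub_eq_zero.1 h
    refine Prod.ext ?_ h2
    rw [a1, a2, h2]
  have h2 : ∑ Y ∈ S, rr m c Y = ∑ P, (onP m c S P).card := by
    unfold rr onP
    simp_rw [Finset.card_filter]
    exact Finset.sum_comm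
  refine ⟨h1, h2, ?_⟩
  rw [h2]
  calc ∑ P, (onP m c S P).card ≤ ∑ _P : Fin n, (k + 1) := Finset.sum_le_sum fun P _ => h1 P
    _ = n * (k + 1) := by simp

end Pool.Agent.BOG.H95
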